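import Mathlib
import Pool.Agent.Helper78.LK.Goals

/-!
# Project LK (MP_5a63b6_lc), packet KNT: the diagram is a knot diagram
-/

set_option autoImplicit false

namespace Pool.Agent.Helper63.LK

open Pool.Agent.Helper50.KP Pool.Agent.Helper78.LK

theorem und_append (W W' : DW) : und (W ++ W') = und W ++ und W' := by
  unfold und
  rw [List.map_append]

theorem und_tw (s : Bool) (p c n : ℕ) : und (tw s p c n) = List.replicate n (.X s, p) := by
  unfold und tw
  rw [List.map_map]
  have : ((fun e : DEv => (e.1, e.2.1)) ∘ fun i : ℕ => ((Kind.X s, p, c + 1 + i) : DEv)) =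
      fun _ => (Kind.X s, p) := rfl
  rw [this, List.map_const', List.length_range]

theorem und_W0 (k : ℕ) : und (W0 k) = w0 k := by
  unfold W0 w0
  rw [und_append, und_append, und_append, und_append, und_append, und_tw, und_tw, und_tw, und_tw]
  rfl

theorem str_rep (s : Bool) (p : ℕ) (hp : p ≤ 2) (w : Word) (n : ℕ) :
    str (List.replicate n (.X s, p) ++ w) 4 = str w 4 := by
  induction n with
  | zero => simp
  | succ n ih =>
    rw [List.replicate_succ, List.cons_append]
    show (if p + 2 ≤ 4 then str (List.replicate n (.X s, p) ++ w) (4 - 2 + 2) else none) = _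
    rw [if_pos (by omega)]
    exact ih

theorem dia_w0 (k : ℕ) : IsDia (w0 k) := by
  unfold IsDia w0
  simp only [List.append_assoc, List.cons_append, List.nil_append]
  show str (List.replicate (4 * k) (Kind.X true, 1) ++ _) 4 = _
  rw [str_rep true 1 (by norm_num), str_rep true 0 (by norm_num), str_rep false 2 (by norm_num),
    str_rep false 1 (by norm_num)]
  rfl

theorem lab0 {s : Bool} {w : Word} {c : List Bool} {x y z u : Bool}
    (h : Lab ((.X s, 0) :: w) c [x, y, z, u]) : Lab w c [y, x, z, u] := by
  obtain ⟨a, b, R, h1, h2⟩ := h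
  simp only [List.drop_zero, List.cons.injEq] at h1
  obtain ⟨rfl, rfl, rfl⟩ := h1
  exact h2

theorem lab1 {s : Bool} {w : Word} {c : List Bool} {x y z u : Bool}
    (h : Lab ((.X s, 1) :: w) c [x, y, z, u]) : Lab w c [x, z, y, u] := by
  obtain ⟨a, b, R, h1, h2⟩ := h
  simp only [List.drop_succ_cons, List.drop_zero, List.cons.injEq] at h1
  obtain ⟨rfl, rfl, rfl⟩ := h1
  exact h2

theorem lab2 {s : Bool} {w : Word} {c : List Bool} {x y z u : Bool}
    (h : Lab ((.X s, 2) :: w) c [x, y, z, u]) : Lab w c [x, y, u, z] := by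
  obtain ⟨a, b, R, h1, h2⟩ := h
  simp only [List.drop_succ_cons, List.drop_zero, List.cons.injEq] at h1
  obtain ⟨rfl, rfl, rfl⟩ := h1
  exact h2

theorem rep0 {s : Bool} {w : Word} {c : List Bool} {x y z u : Bool} (n : ℕ)
    (h : Lab (List.replicate (2 * n) (.X s, 0) ++ w) c [x, y, z, u]) : Lab w c [x, y, z, u] := by
  induction n with
  | zero => simpa using h
  | succ n ih =>
    rw [show 2 * (n + 1) = 2 * n + 1 + 1 by ring, List.replicate_succ, List.replicate_succ,
      List.cons_append, List.cons_append] at h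
    exact ih (lab0 (lab0 h))

theorem rep1 {s : Bool} {w : Word} {c : List Bool} {x y z u : Bool} (n : ℕ)
    (h : Lab (List.replicate (2 * n) (.X s, 1) ++ w) c [x, y, z, u]) : Lab w c [x, y, z, u] := by
  induction n with
  | zero => simpa using h
  | succ n ih =>
    rw [show 2 * (n + 1) = 2 * n + 1 + 1 by ring, List.replicate_succ, List.replicate_succ,
      List.cons_append, List.cons_append] at h
    exact ih (lab1 (lab1 h))

theorem rep2 {s : Bool} {w : Word} {c : List Bool} {x y z u : Bool} (n : ℕ)
    (h : Lab (List.replicate (2 * n) (.X s, 2) ++ w) c [x, y, z, u]) : Lab w c [x, y, z, u] := by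
  induction n with
  | zero => simpa using h
  | succ n ih =>
    rw [show 2 * (n + 1) = 2 * n + 1 + 1 by ring, List.replicate_succ, List.replicate_succ,
      List.cons_append, List.cons_append] at h
    exact ih (lab2 (lab2 h))

theorem knot_w0 (k : ℕ) : IsKnot (w0 k) := by
  refine ⟨dia_w0 k, ?_, ?_⟩
  · unfold w0
    simp
  · intro c hc
    unfold w0 at hc
    simp only [List.append_assoc, List.cons_append, List.nil_append] at hc
    obtain ⟨x, c', rfl, h1⟩ := hc
    obtain ⟨y, c'', rfl, h2⟩ := h1
    have h3 : Lab (List.replicate (4 * k) (Kind.X true, 1) ++ (List.replicate (2 * k) (.X true, 0) ++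
        (List.replicate (2 * k) (.X false, 2) ++ (List.replicate (4 * k + 1) (.X false, 1) ++
          [(.cap, 0), (.cap, 0)])))) c'' [x, x, y, y] := h2
    rw [show 4 * k = 2 * (2 * k) by ring] at h3
    have h4 := rep2 k (rep0 k (rep1 (2 * k) h3))
    rw [List.replicate_succ, List.cons_append] at h4
    have h5 := rep1 (2 * k) (lab1 h4)
    obtain ⟨b, R, h6, h7⟩ := h5
    simp only [List.drop_zero, List.cons.injEq] at h6
    obtain ⟨rfl, rfl, rfl⟩ := h6
    obtain ⟨b', R', h8, h9⟩ := h7
    obtain ⟨rfl, _⟩ := h9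
    intro p hp q hq
    simp only [List.mem_cons, List.not_mem_nil, or_false, or_self] at hp hq
    rw [hp, hq]

theorem cross_w0 (k : ℕ) : crossings (w0 k) = 12 * k + 1 := by
  unfold crossings w0
  simp only [List.countP_append, List.countP_replicate, List.countP_cons, List.countP_nil]
  simp
  ring

/-- **Packet KNT.** -/
theorem gKNT : KNT := fun k => ⟨und_W0 k, knot_w0 k, cross_w0 k⟩

end Pool.Agent.Helper63.LK
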